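import Pool.Agent.H579R3.VR

/-!
# Pieces of a structure over finitely many elements

Definitions and the translation to structures with named elements.
-/

set_option autoImplicit false

namespace Pool.Agent.R529.AM

open Set MeasureTheory Pool.Agent.H623R2.VE Pool.Agent.H579R3.VP Pool.Agent.H579R3.VR

/-- the structures on `ℕ` with relations of arities `a 0, a 1, …` -/
abbrev Str (a : ℕ → ℕ) : Type := (i : ℕ) → (Fin (a i) → ℕ) → Bool

/-- isomorphism of structures -/
def Iso {a : ℕ → ℕ} (x y : Str a) : Prop :=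
  ∃ σ : Equiv.Perm ℕ, ∀ (i : ℕ) (t : Fin (a i) → ℕ), x i t = y i (fun k => σ (t k))

/-- `u` and `v` do not belong to the first `n` elements and occur together in a tuple for which
one of the relations holds -/
def Linked {a : ℕ → ℕ} (n : ℕ) (x : Str a) (u v : ℕ) : Prop :=
  n ≤ u ∧ n ≤ v ∧ ∃ (i : ℕ) (t : Fin (a i) → ℕ), x i t = true ∧ u ∈ range t ∧ v ∈ range t

/-- the piece of `x` over the first `n` elements which contains `u`: the elements which can be
reached from `u` by links which avoid the first `n` elements -/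
def piece {a : ℕ → ℕ} (n : ℕ) (x : Str a) (u : ℕ) : Set ℕ :=
  {v | Relation.ReflTransGen (Linked n x) u v}

/-- The piece of `u` in `x` and the piece of `v` in `y` are isomorphic over the first `n` elements:
there is an isomorphism between the substructures on these pieces together with the first `n`
elements, which is the identity on the first `n` elements. -/
def SamePiece {a : ℕ → ℕ} (n : ℕ) (x : Str a) (u : ℕ) (y : Str a) (v : ℕ) : Prop :=
  ∃ g : ℕ → ℕ, BijOn g (piece n x u) (piece n y v) ∧ (∀ j < n, g j = j) ∧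
    ∀ (i : ℕ) (t : Fin (a i) → ℕ), (∀ k, t k < n ∨ t k ∈ piece n x u) →
      x i t = y i (fun k => g (t k))

/-- the free amalgam over the first `n` elements of infinitely many copies of `x`: the element
`n + w` of the `m`-th copy is `n + Nat.pair m w` -/
def copies {a : ℕ → ℕ} (n : ℕ) (x : Str a) : Str a := fun i t =>
  decide (∀ k l, n ≤ t k → n ≤ t l → (Nat.unpair (t k - n)).1 = (Nat.unpair (t l - n)).1) &&
    x i (fun k => if t k < n then t k else n + (Nat.unpair (t k - n)).2)

variable {a : ℕ → ℕ} {n : ℕ}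

theorem iso_iff {x y : Str a} : Iso x y ↔ GIso (toI x) (toI y) := by
  constructor
  · rintro ⟨σ, h⟩
    exact ⟨σ, fun i t => by
      show x i t = true ↔ y i (fun k => σ (t k)) = true
      rw [h i t]⟩
  · rintro ⟨σ, h⟩
    exact ⟨σ, fun i t => by
      rw [Bool.eq_iff_iff]
      exact h i t⟩

/-- a tuple is determined by its signature and its remainder -/
theorem join_self (i : ℕ) (t : Fin (a i) → ℕ) :
    join (⟨i, sgn n t⟩ : Jdx a n) (fun j => t (en (⟨i, sgn n t⟩ : Jdx a n) j).1 - n) = t := by
  funext k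
  rcases h : sgn n t k with _ | j
  · rw [join_none (q := (⟨i, sgn n t⟩ : Jdx a n)) _ h]
    simp only [Equiv.apply_symm_apply]
    exact Nat.add_sub_cancel' (sgn_none.1 h)
  · rw [join_some (q := (⟨i, sgn n t⟩ : Jdx a n)) _ h]
    unfold sgn at h
    split_ifs at h with h1
    rw [← Option.some.inj h]

theorem adj_iff (x : Str a) (u v : ℕ) :
    Adj (toI (rest n x)) u v ↔ Linked n x (n + u) (n + v) := by
  constructor
  · rintro ⟨q, t, h, ⟨j, rfl⟩, ⟨l, rfl⟩⟩
    refine ⟨Nat.le_add_right _ _, Nat.le_add_right _ _, q.1, join q t, h, ?_, ?_⟩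
    · exact ⟨(en q j).1, join_en q t j⟩
    · exact ⟨(en q l).1, join_en q t l⟩
  · rintro ⟨-, -, i, t, h, ⟨k, hk⟩, ⟨l, hl⟩⟩
    refine ⟨⟨i, sgn n t⟩, fun j => t (en (⟨i, sgn n t⟩ : Jdx a n) j).1 - n, ?_, ?_, ?_⟩
    · show x i (join (⟨i, sgn n t⟩ : Jdx a n) _) = true
      rw [join_self]
      exact h
    · have h1 : sgn n t k = none := sgn_none.2 (by omega)
      refine ⟨(en (⟨i, sgn n t⟩ : Jdx a n)).symm ⟨k, h1⟩, ?_⟩
      simp only [Equiv.apply_symm_apply]
      omega
    · have h1 : sgn n t l = none := sgn_none.2 (by omega)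
      refine ⟨(en (⟨i, sgn n t⟩ : Jdx a n)).symm ⟨l, h1⟩, ?_⟩
      simp only [Equiv.apply_symm_apply]
      omega

theorem mem_piece_of_conn (x : Str a) {u v : ℕ} (h : Conn (toI (rest n x)) u v) :
    n + v ∈ piece n x (n + u) := by
  induction h with
  | refl => exact Relation.ReflTransGen.refl
  | tail _ h ih => exact Relation.ReflTransGen.tail ih ((adj_iff x _ _).1 h)

theorem conn_of_mem_piece (x : Str a) {u w : ℕ} (h : w ∈ piece n x (n + u)) :
    n ≤ w ∧ Conn (toI (rest n x)) u (w - n) := by
  induction h with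
  | refl => exact ⟨Nat.le_add_right _ _, by rw [Nat.add_sub_cancel_left]; exact Conn.refl _ _⟩
  | @tail b c _ h ih =>
    refine ⟨h.2.1, ih.2.trans (Relation.ReflTransGen.single ((adj_iff x _ _).2 ?_))⟩
    rw [Nat.add_sub_cancel' h.1, Nat.add_sub_cancel' h.2.1]
    exact h

theorem mem_piece_iff (x : Str a) {u v : ℕ} :
    n + v ∈ piece n x (n + u) ↔ Conn (toI (rest n x)) u v := by
  refine ⟨fun h => ?_, mem_piece_of_conn x⟩
  have := (conn_of_mem_piece x h).2
  rwa [Nat.add_sub_cancel_left] at this

theorem samePiece_iff (x y : Str a) (u v : ℕ) :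
    SamePiece n x (n + u) y (n + v) ↔ CEq (toI (rest n x)) u (toI (rest n y)) v := by
  constructor
  · rintro ⟨g, hb, hj, hr⟩
    have hm : ∀ w, Conn (toI (rest n x)) u w →
        n ≤ g (n + w) ∧ Conn (toI (rest n y)) v (g (n + w) - n) := fun w hw =>
      conn_of_mem_piece y (hb.mapsTo (mem_piece_of_conn x hw))
    refine ⟨fun w => g (n + w) - n, ⟨?_, ?_, ?_, ?_⟩, ?_⟩
    · intro w z hw hz e
      have h1 := (hm w hw).1
      have h2 := (hm z hz).1
      have h3 : g (n + w) = g (n + z) := by omega
      have := hb.injOn (mem_piece_of_conn x hw) (mem_piece_of_conn x hz) h3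
      omega
    · intro w hw
      exact (hm u (Conn.refl _ _)).2.symm.trans (hm w hw).2
    · intro z hz
      have h1 := (hm u (Conn.refl _ _)).2.trans hz
      obtain ⟨w, hw, e⟩ := hb.surjOn (mem_piece_of_conn y h1)
      have h2 := conn_of_mem_piece x hw
      refine ⟨w - n, h2.2, ?_⟩
      rw [Nat.add_sub_cancel' h2.1, e, Nat.add_sub_cancel_left]
    · intro q t ht
      show x q.1 (join q t) = true ↔ y q.1 (join q (fun j => g (n + t j) - n)) = true
      have h1 := hr q.1 (join q t) (fun k => by
        rcases h : q.2 k with _ | j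
        · right
          rw [join_none q t h]
          exact mem_piece_of_conn x (ht _)
        · left
          rw [join_some q t h]
          exact j.2)
      have h2 : (fun k => g (join q t k)) = join q (fun j => g (n + t j) - n) := by
        funext k
        rcases h : q.2 k with _ | j
        · rw [join_none q _ h, join_none q _ h]
          exact (Nat.add_sub_cancel' (hm _ (ht _)).1).symm
        · rw [join_some q _ h, join_some q _ h]
          exact hj _ j.2
      rw [h1, h2]
    · exact (hm u (Conn.refl _ _)).2.symm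
  · rintro ⟨g, hg, hc⟩
    refine ⟨fun w => if w < n then w else n + g (w - n), ⟨?_, ?_, ?_⟩, fun j hj => if_pos hj, ?_⟩
    · intro w hw
      have h1 := conn_of_mem_piece x hw
      simp only [if_neg (not_lt.2 h1.1)]
      exact mem_piece_of_conn y (hc.symm.trans (hg.map _ h1.2))
    · intro w hw z hz e
      have h1 := conn_of_mem_piece x hw
      have h2 := conn_of_mem_piece x hz
      simp only [if_neg (not_lt.2 h1.1), if_neg (not_lt.2 h2.1)] at e
      have h3 := hg.inj _ _ h1.2 h2.2 (by omega)
      omega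
    · intro z hz
      have h1 := conn_of_mem_piece y hz
      obtain ⟨w, hw, e⟩ := hg.surj _ (hc.trans h1.2)
      refine ⟨n + w, mem_piece_of_conn x hw, ?_⟩
      simp only [if_neg (not_lt.2 (Nat.le_add_right n w)), Nat.add_sub_cancel_left]
      rw [e, Nat.add_sub_cancel' h1.1]
    · intro i t ht
      have h0 : ∀ k, n ≤ t k → Conn (toI (rest n x)) u (t k - n) := by
        intro k hk
        rcases ht k with h | h
        · omega
        · exact (conn_of_mem_piece x h).2
      have h1 := hg.rel ⟨i, sgn n t⟩ (fun j => t (en (⟨i, sgn n t⟩ : Jdx a n) j).1 - n)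
        (fun j => h0 _ (sgn_none.1 (en (⟨i, sgn n t⟩ : Jdx a n) j).2))
      have h2 : x i (join (⟨i, sgn n t⟩ : Jdx a n)
          (fun j => t (en (⟨i, sgn n t⟩ : Jdx a n) j).1 - n)) = true ↔
          y i (join (⟨i, sgn n t⟩ : Jdx a n)
          (fun j => g (t (en (⟨i, sgn n t⟩ : Jdx a n) j).1 - n))) = true := h1
      rw [join_self] at h2
      have h3 : join (⟨i, sgn n t⟩ : Jdx a n)
          (fun j => g (t (en (⟨i, sgn n t⟩ : Jdx a n) j).1 - n)) =
          fun k => if t k < n then t k else n + g (t k - n) := by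
        funext k
        rcases h : sgn n t k with _ | j
        · rw [join_none (q := (⟨i, sgn n t⟩ : Jdx a n)) _ h]
          simp only [Equiv.apply_symm_apply]
          rw [if_neg (not_lt.2 (sgn_none.1 h))]
        · rw [join_some (q := (⟨i, sgn n t⟩ : Jdx a n)) _ h]
          unfold sgn at h
          split_ifs at h with h1
          rw [if_pos h1, ← Option.some.inj h]
      rw [h3] at h2
      rw [Bool.eq_iff_iff]
      exact h2

theorem back_pwc (c : Code (ar a n)) : back (pwc c) = copies n (back c) := by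
  funext i t
  have h1 : sgn n (fun k => if t k < n then t k else n + (Nat.unpair (t k - n)).2) = sgn n t := by
    funext k
    by_cases h : t k < n
    · simp only [sgn, if_pos h, dif_pos h]
    · have h2 : ¬ n + (Nat.unpair (t k - n)).2 < n := by omega
      simp only [sgn, if_neg h, dif_neg h, dif_neg h2]
  rw [Bool.eq_iff_iff]
  show pwc c ⟨i, sgn n t⟩ (fun j => t (en ⟨i, sgn n t⟩ j).1 - n) = true ↔ _
  have h2 : pwc c ⟨i, sgn n t⟩ (fun j => t (en ⟨i, sgn n t⟩ j).1 - n) = true ↔
      (∀ k l, (Nat.unpair (t (en (⟨i, sgn n t⟩ : Jdx a n) k).1 - n)).1 =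
        (Nat.unpair (t (en (⟨i, sgn n t⟩ : Jdx a n) l).1 - n)).1) ∧
      c ⟨i, sgn n t⟩ (fun j => (Nat.unpair (t (en (⟨i, sgn n t⟩ : Jdx a n) j).1 - n)).2) = true := by
    simp only [pwc, ofI, Pw, toI, decide_eq_true_eq]
  rw [h2]
  unfold copies
  rw [Bool.and_eq_true, decide_eq_true_eq, back_eq c h1]
  refine and_congr ?_ ?_
  · constructor
    · intro h k l hk hl
      have := h ((en (⟨i, sgn n t⟩ : Jdx a n)).symm ⟨k, sgn_none.2 hk⟩)
        ((en (⟨i, sgn n t⟩ : Jdx a n)).symm ⟨l, sgn_none.2 hl⟩)
      simpa only [Equiv.apply_symm_apply] using this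
    · intro h k l
      exact h _ _ (sgn_none.1 (en (⟨i, sgn n t⟩ : Jdx a n) k).2)
        (sgn_none.1 (en (⟨i, sgn n t⟩ : Jdx a n) l).2)
  · have h3 : (fun j => (Nat.unpair (t (en (⟨i, sgn n t⟩ : Jdx a n) j).1 - n)).2) =
        fun j => (if t (en (⟨i, sgn n t⟩ : Jdx a n) j).1 < n then
          t (en (⟨i, sgn n t⟩ : Jdx a n) j).1
          else n + (Nat.unpair (t (en (⟨i, sgn n t⟩ : Jdx a n) j).1 - n)).2) - n := by
      funext j
      rw [if_neg (not_lt.2 (sgn_none.1 (en (⟨i, sgn n t⟩ : Jdx a n) j).2)),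
        Nat.add_sub_cancel_left]
    rw [h3]

end Pool.Agent.R529.AM
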